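import Pool.Agent.H653R5.Main
import Pool.Agent.H653R5.FG2
import Pool.Agent.H653R5.Ext
import Pool.Agent.H653R5.Fin
import Pool.Agent.H653R5.FG1b
import Pool.Agent.H653R5.PC1b
import Pool.Agent.H653R5.PC2
import Pool.Agent.H653R5.PC3
import Pool.Agent.H653R5.NilB
import Pool.Agent.H653R5.VN
import Pool.Agent.H653R5.T8
import Pool.Agent.H653R5.T9
import Pool.Agent.H653R5.T10
import Pool.Agent.H653R5.T12b
import Pool.Agent.H653R4.Sch
import Pool.Agent.H653R4.Rel
import Pool.Agent.H653R4.ResA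
import Pool.Agent.H653R4.ResB

set_option autoImplicit false

namespace Pool.Agent.Results.MP_d943a5_al.VirtualSurjectionsFP

open Pool.Agent.H653R4 Pool.Agent.H653R5

/-- A group `G` is of type `FP_m`: there are finitely generated free `ℤG`-modules
`F_i = (ℤG)^(k i)` and `ℤG`-linear maps `d_i : F_(i+1) → F_i` such that
`F_m → ⋯ → F_1 → F_0 → ℤ → 0` is exact, where `F_0 → ℤ` is `x ↦ ∑ ε(x_j)` with `ε` the
augmentation. -/
def TypeFP (m : ℕ) (G : Type) [Group G] : Prop :=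
  ∃ (k : ℕ → ℕ) (ε : MonoidAlgebra ℤ G →+* ℤ)
    (d : ∀ i : ℕ, (Fin (k (i + 1)) → MonoidAlgebra ℤ G) →ₗ[MonoidAlgebra ℤ G]
      (Fin (k i) → MonoidAlgebra ℤ G)),
    (∀ g : G, ε (MonoidAlgebra.of ℤ G g) = 1) ∧
    (∃ x : Fin (k 0) → MonoidAlgebra ℤ G, ∑ j, ε (x j) = 1) ∧
    (0 < m → ∀ x : Fin (k 0) → MonoidAlgebra ℤ G,
      (∑ j, ε (x j) = 0 ↔ x ∈ LinearMap.range (d 0))) ∧
    (∀ j : ℕ, j + 2 ≤ m → LinearMap.range (d (j + 1)) = LinearMap.ker (d j))

/-- Virtual surjections theorem for type `FP_k`: if `2 ≤ k ≤ n`, the groups `Γ i` are of type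
`FP_k` and the subgroup `P` of `∏ Γ i` projects to a subgroup of finite index of `∏_{j ∈ J} Γ j`
for every `J` with `|J| = k`, then `P` is of type `FP_k`. -/
theorem result (n k : ℕ) (hk : 2 ≤ k) (hkn : k ≤ n) (Γ : Fin n → Type) [∀ i, Group (Γ i)]
    (hΓ : ∀ i, TypeFP k (Γ i)) (P : Subgroup (∀ i, Γ i))
    (hP : ∀ J : Finset (Fin n), J.card = k →
      (P.map (MonoidHom.pi fun j : ↥J => Pi.evalMonoidHom Γ (j : Fin n))).index ≠ 0) :
    TypeFP k P := by
  have hE := task_Equiv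
  have hS := task_Sch
  have hfp : ∀ i, FPm k (Γ i) := fun i => task_ResA hE hS k (Γ i) (hΓ i)
  have hmono : ∀ (m : ℕ) (G : Type) [Group G], FPm (m + 1) G → FPm 1 G := by
    intro m
    induction m with
    | zero => intro G _ h; exact h
    | succ m ih => intro G _ h; exact ih G (fpx_mono _ _ _ h)
  have hfg : ∀ i, Group.FG (Γ i) := by
    intro i
    obtain ⟨m, rfl⟩ : ∃ m, k = m + 1 := ⟨k - 1, by omega⟩
    exact task_FG2 _ (hmono m _ (hfp i))
  have hPC3 := task_PC3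
  have hNil := task_NilB task_PC2 task_Rel
  have hVN := task_VN hNil
  have h8 := task_T8 hVN
  have h1 : FPm k P := Pool.Agent.H653R5.main task_Ext task_Fin task_FG1' (task_PC1' task_Ext)
    task_PC2 h8 (task_T9 task_PC2 hPC3 h8) task_T10 n k hk Γ P
    (fun i => (Pi.evalMonoidHom Γ i).comp P.subtype)
    (fun x hx => Subtype.ext (funext hx)) hfg hfp (task_T12' n k (by omega) hkn Γ P hP)
  exact task_ResB hS k P h1

end Pool.Agent.Results.MP_d943a5_al.VirtualSurjectionsFP
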